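import Pool.Agent.Helper77.RL.Goals3

/-!
# RL-EXF: existence of the Kummer data
-/

namespace Pool.Agent.Helper14.RL

open NumberField Pool.Agent.Helper77.RL

theorem x_exf : X_EXF := by
  classical
  intro p hp n K _ _ E _ _ ξ b hξ hgen hb
  have hpn : 0 < p ^ n := pow_pos hp.out.pos n
  have : FiniteDimensional K E := by
    have : IsScalarTower ℚ K E := inferInstance
    exact Module.Finite.of_restrictScalars_finite ℚ K E
  have : Normal K E := inferInstance
  -- the set of roots
  set S : Set (AlgebraicClosure K) :=
    {β | ∃ σ : E ≃ₐ[K] E, β ^ p ^ n = ((σ b : E) : AlgebraicClosure K)} with hS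
  have hSfin : S.Finite := by
    have h1 : S = ⋃ σ : E ≃ₐ[K] E,
        {β : AlgebraicClosure K | β ^ p ^ n = ((σ b : E) : AlgebraicClosure K)} := by
      ext β
      simp [hS]
    rw [h1]
    apply Set.finite_iUnion
    intro σ
    have h2 : {β : AlgebraicClosure K | β ^ p ^ n = ((σ b : E) : AlgebraicClosure K)} ⊆
        ((Polynomial.X ^ (p ^ n) - Polynomial.C ((σ b : E) : AlgebraicClosure K)).roots.toFinset :
          Set (AlgebraicClosure K)) := by
      intro β hβ
      have h3 : (Polynomial.X ^ (p ^ n) - Polynomial.C ((σ b : E) : AlgebraicClosure K)) ≠ 0 :=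
        Polynomial.X_pow_sub_C_ne_zero hpn _
      simp only [Finset.mem_coe, Multiset.mem_toFinset]
      rw [Polynomial.mem_roots h3]
      simp only [Polynomial.IsRoot, Polynomial.eval_sub, Polynomial.eval_pow, Polynomial.eval_X,
        Polynomial.eval_C]
      rw [sub_eq_zero]
      exact hβ
    exact (Finset.finite_toSet _).subset h2
  set F : IntermediateField K (AlgebraicClosure K) := E ⊔ IntermediateField.adjoin K S with hF
  have hEF : E ≤ F := le_sup_left
  have hSF : ∀ β ∈ S, β ∈ F := fun β hβ =>
    (le_sup_right : IntermediateField.adjoin K S ≤ F) (IntermediateField.subset_adjoin K S hβ)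
  have hfin2 : FiniteDimensional K (IntermediateField.adjoin K S) := by
    have : Finite S := hSfin
    exact IntermediateField.finiteDimensional_adjoin (fun x _ => Algebra.IsIntegral.isIntegral x)
  have hfin3 : FiniteDimensional K F := IntermediateField.finiteDimensional_sup E _
  have hnf : NumberField F := NumberField.of_module_finite K F
  have hnorm : Normal K F := by
    rw [IntermediateField.normal_iff_forall_map_le]
    intro τ
    rw [hF, IntermediateField.map_sup, IntermediateField.adjoin_map]
    apply sup_le
    · exact ((IntermediateField.normal_iff_forall_map_le.mp (inferInstance : Normal K E)) τ).trans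
        hEF
    · rw [IntermediateField.adjoin_le_iff]
      rintro _ ⟨β, ⟨σ, hβ⟩, rfl⟩
      apply hSF
      refine ⟨σ.trans (τ.restrictNormal' E), ?_⟩
      have h4 : (((σ.trans (τ.restrictNormal' E)) b : E) : AlgebraicClosure K)
          = τ ((σ b : E) : AlgebraicClosure K) := AlgHom.restrictNormal_commutes τ E (σ b)
      rw [h4, ← hβ, map_pow]
  refine ⟨F, hEF, hnf, ?_⟩
  let alg : Algebra E F := (IntermediateField.inclusion hEF).toRingHom.toAlgebra
  have halg : ∀ x : E, ((algebraMap E F x : F) : AlgebraicClosure K) = (x : AlgebraicClosure K) :=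
    fun x => rfl
  refine
    { galE := inferInstance
      galF := ⟨⟩
      prim := hξ
      genE := hgen
      ne := hb
      root := ?_
      gen := ?_ }
  · intro σ
    obtain ⟨z, hz⟩ := IsAlgClosed.exists_pow_nat_eq ((σ b : E) : AlgebraicClosure K) hpn
    refine ⟨⟨z, hSF z ⟨σ, hz⟩⟩, ?_⟩
    apply Subtype.ext
    rw [halg]
    exact hz
  · intro h hE hβ
    let A : IntermediateField K F :=
      { AlgHom.equalizer (h : F →ₐ[K] F) (AlgHom.id K F) with
        inv_mem' := by
          intro x hx
          have hx' : h x = x := hx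
          show h x⁻¹ = x⁻¹
          rw [map_inv₀, hx'] }
    have hA : ∀ x : F, x ∈ A ↔ h x = x := fun x => Iff.rfl
    have hle : F ≤ IntermediateField.lift A := by
      refine (show E ⊔ IntermediateField.adjoin K S ≤ IntermediateField.lift A from ?_)
      apply sup_le
      · intro y hy
        have h5 : (⟨y, hEF hy⟩ : F) ∈ A := by
          rw [hA]
          exact hE ⟨y, hy⟩
        exact (IntermediateField.mem_lift (⟨y, hEF hy⟩ : F)).mpr h5
      · rw [IntermediateField.adjoin_le_iff]
        intro β hβS
        obtain ⟨σ, hσ⟩ := hβS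
        have h6 : (⟨β, hSF β ⟨σ, hσ⟩⟩ : F) ∈ A := by
          rw [hA]
          apply hβ σ
          apply Subtype.ext
          rw [halg]
          exact hσ
        exact (IntermediateField.mem_lift (⟨β, hSF β ⟨σ, hσ⟩⟩ : F)).mpr h6
    apply AlgEquiv.ext
    intro x
    have h7 : (x : AlgebraicClosure K) ∈ IntermediateField.lift A := hle x.2
    exact (hA x).mp ((IntermediateField.mem_lift x).mp h7)

end Pool.Agent.Helper14.RL
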