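import Mathlib
import Pool.Agent.Helper18.RL.Goals
import Pool.Agent.Helper35.RG3.XPM
import Pool.Agent.Helper31.RG3.TRG
import Pool.Agent.Helper76.RG3.TCO

set_option autoImplicit false
set_option linter.unusedSectionVars false

/-!
# Project RL (MP_0c2bb8_co), packet FRC: every `r`-graph is fractionally class 1
-/

namespace Pool.Agent.Helper14.RL

open Finset Pool.Agent.Helper37.RG3 Pool.Agent.Helper18.RL

variable {V : Type} [Fintype V] [DecidableEq V] {U : Finset V} {w : V → V → ℕ} {r : ℕ}

/-- a multiple of `w` is colourable -/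
def Frac (w : V → V → ℕ) (r : ℕ) : Prop := ∃ k, 0 < k ∧ Col (fun u v => k * w u v) (k * r)

theorem bt_mul (w : V → V → ℕ) (k : ℕ) (A B : Finset V) :
    bt (fun u v => k * w u v) A B = k * bt w A B := by
  unfold bt
  rw [Finset.mul_sum]
  exact Finset.sum_congr rfl fun a _ => (Finset.mul_sum _ _ _).symm

theorem ct_mul (w : V → V → ℕ) (k : ℕ) (X : Finset V) :
    ct (fun u v => k * w u v) X = k * ct w X := bt_mul w k X Xᶜ

theorem rg_mul (h : RG U w r) (k : ℕ) : RG U (fun u v => k * w u v) (k * r) where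
  symm u v := by
    show k * w u v = k * w v u
    rw [h.symm]
  irr u := by
    show k * w u u = 0
    rw [h.irr, mul_zero]
  supp u v huv := h.supp u v fun h0 => huv (by
    show k * w u v = 0
    rw [h0, mul_zero])
  deg u hu := by
    show ∑ v, k * w u v = k * r
    rw [← Finset.mul_sum, h.deg u hu]
  cut X hX ho := by
    rw [ct_mul]
    exact Nat.mul_le_mul_left k (h.cut X hX ho)

theorem cq_mul (w : V → V → ℕ) (k : ℕ) (X : Finset V) (y : V) :
    cq (fun u v => k * w u v) X y = fun u v => k * cq w X y u v := by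
  funext u v
  unfold cq
  split_ifs
  · rfl
  · exact bt_mul w k _ _
  · exact bt_mul w k _ _
  · rw [mul_zero]

theorem frac_zero (h : RG U w 0) : Frac w 0 := by
  refine ⟨1, one_pos, ?_⟩
  have h1 := col_zero h
  have e : (fun u v => 1 * w u v) = w := by
    funext u v
    exact one_mul _
  rw [e, mul_zero]
  exact h1

/-- a nontrivial tight cut -/
theorem stepA (hCOL : G_COL)
    (ih : ∀ (U' : Finset V) (w' : V → V → ℕ) (r' : ℕ), U'.card < U.card → RG U' w' r' → Frac w' r')
    (h : RG U w r) (hr : 0 < r) (X : Finset V) (hX : X ⊆ U) (ho : Odd X.card)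
    (h3 : 3 ≤ X.card) (h4 : X.card + 3 ≤ U.card) (hct : ct w X = r) : Frac w r := by
  obtain ⟨-, C2, -⟩ := hCOL V
  have hUe := h.even_card hr
  have hYcard : (U \ X).card = U.card - X.card := Finset.card_sdiff_of_subset hX
  have hYo : Odd (U \ X).card := by
    obtain ⟨k, hk⟩ := ho
    obtain ⟨l, hl⟩ := hUe
    exact ⟨l - k - 1, by omega⟩
  have hctY : ct w (U \ X) = r := by rw [h.ct_compl hX, hct]
  obtain ⟨x₀, hx₀⟩ : X.Nonempty := Finset.card_pos.mp ho.pos
  obtain ⟨y₀, hy₀⟩ : (U \ X).Nonempty := Finset.card_pos.mp hYo.pos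
  have hy1 : y₀ ∉ X := (mem_sdiff.mp hy₀).2
  have hx1 : x₀ ∉ U \ X := fun hh => (mem_sdiff.mp hh).2 hx₀
  obtain ⟨k₁, hk₁, c₁⟩ := ih (insert y₀ X) (cq w X y₀) r (by
    rw [Finset.card_insert_of_notMem hy1]
    omega) (Pool.Agent.Helper31.RG3.trg V U X w r y₀ h hX ho hct hy1)
  obtain ⟨k₂, hk₂, c₂⟩ := ih (insert x₀ (U \ X)) (cq w (U \ X) x₀) r (by
    rw [Finset.card_insert_of_notMem hx1]
    omega) (Pool.Agent.Helper31.RG3.trg V U (U \ X) w r x₀ h Finset.sdiff_subset hYo hctY hx1)
  refine ⟨k₁ * k₂, Nat.mul_pos hk₁ hk₂, ?_⟩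
  refine Pool.Agent.Helper76.RG3.tco V U X _ _ x₀ y₀ (rg_mul h (k₁ * k₂)) hX
    (by rw [ct_mul, hct]) hx₀ hy₀ ?_ ?_
  · rw [cq_mul]
    have h1 := C2 _ _ k₂ c₁
    have e1 : (fun u v => k₂ * (k₁ * cq w X y₀ u v)) = fun u v => k₁ * k₂ * cq w X y₀ u v := by
      funext u v
      ring
    have e2 : k₂ * (k₁ * r) = k₁ * k₂ * r := by ring
    rw [← e1, ← e2]
    exact h1
  · rw [cq_mul]
    have h1 := C2 _ _ k₁ c₂
    have e1 : (fun u v => k₁ * (k₂ * cq w (U \ X) x₀ u v)) =
        fun u v => k₁ * k₂ * cq w (U \ X) x₀ u v := by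
      funext u v
      ring
    have e2 : k₁ * (k₂ * r) = k₁ * k₂ * r := by ring
    rw [← e1, ← e2]
    exact h1

/-- the number of ordered pairs of positive weight -/
def sup (w : V → V → ℕ) : ℕ := (univ.filter fun q : V × V => w q.1 q.2 ≠ 0).card

/-- `j` copies of the matching `m` -/
def em (m : V → V) (j : ℕ) : V → V → ℕ := fun u v => if u ≠ v ∧ m u = v then j else 0

theorem em_symm {m : V → V} (hm : ∀ u, m (m u) = u) (j : ℕ) (u v : V) :
    em m j u v = em m j v u := by
  unfold em
  have : (u ≠ v ∧ m u = v) ↔ (v ≠ u ∧ m v = u) := by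
    constructor
    · rintro ⟨h1, rfl⟩
      exact ⟨h1.symm, hm u⟩
    · rintro ⟨h1, rfl⟩
      exact ⟨h1.symm, hm v⟩
  simp only [this]

theorem em_deg {m : V → V} (j : ℕ) {u : V} (hu : m u ≠ u) : ∑ v, em m j u v = j := by
  rw [Finset.sum_eq_single_of_mem (m u) (mem_univ _)]
  · exact if_pos ⟨hu.symm, rfl⟩
  · intro v _ hv
    refine if_neg ?_
    rintro ⟨_, rfl⟩
    exact hv rfl

theorem ct_em (m : V → V) (j : ℕ) (X : Finset V) : ct (em m j) X = j * cr m X := by
  unfold ct bt cr
  rw [Finset.card_filter, Finset.mul_sum]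
  refine Finset.sum_congr rfl fun x hx => ?_
  by_cases hmx : m x ∈ X
  · rw [if_neg (by simpa using hmx), mul_zero]
    refine Finset.sum_eq_zero fun v hv => if_neg ?_
    rintro ⟨_, rfl⟩
    rw [Finset.mem_compl] at hv
    exact hv hmx
  · rw [if_pos hmx, mul_one, Finset.sum_eq_single_of_mem (m x) (by simpa using hmx)]
    · refine if_pos ⟨?_, rfl⟩
      intro h
      rw [← h] at hmx
      exact hmx hx
    · intro v _ hv
      refine if_neg ?_
      rintro ⟨_, rfl⟩
      exact hv rfl

/-- the numerators -/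
def num (w : V → V → ℕ) (m : V → V) (r : ℕ) : V ⊕ Finset V → ℕ
  | Sum.inl u => w u (m u)
  | Sum.inr X => ct w X - r

/-- the denominators -/
def den (m : V → V) : V ⊕ Finset V → ℕ
  | Sum.inl _ => 1
  | Sum.inr X => cr m X - 1

/-- the candidates -/
def Can (U : Finset V) (m : V → V) : V ⊕ Finset V → Prop
  | Sum.inl u => u ∈ U
  | Sum.inr X => X ⊆ U ∧ Odd X.card ∧ 3 ≤ cr m X

/-- the choice of the least ratio -/
theorem exists_min (h : RG U w r) (hU : U.Nonempty) {m : V → V} (hm : PM U w m)
    (hnt : NT U w r) : ∃ i, Can U m i ∧ 0 < num w m r i ∧ 0 < den m i ∧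
      ∀ i', Can U m i' → num w m r i * den m i' ≤ num w m r i' * den m i := by
  classical
  have hpos : ∀ i, Can U m i → 0 < num w m r i ∧ 0 < den m i := by
    rintro (u | X)
    · intro hu
      exact ⟨Nat.pos_of_ne_zero (hm.adj u hu), one_pos⟩
    · rintro ⟨hX, ho, h3⟩
      have h1 := cr_le m X
      have h2 := cr_le m (U \ X)
      rw [cr_compl h hm hX, Finset.card_sdiff_of_subset hX] at h2
      have h4 := hnt X hX ho (by omega) (by omega)
      constructor
      · show 0 < ct w X - r
        omega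
      · show 0 < cr m X - 1
        omega
  obtain ⟨u₀, hu₀⟩ := hU
  obtain ⟨i, hi, hmin⟩ := Finset.exists_min_image (univ.filter fun i => Can U m i)
    (fun i => (num w m r i : ℚ) / (den m i : ℚ)) ⟨Sum.inl u₀, by
      rw [mem_filter]
      exact ⟨mem_univ _, hu₀⟩⟩
  rw [mem_filter] at hi
  refine ⟨i, hi.2, (hpos i hi.2).1, (hpos i hi.2).2, ?_⟩
  intro i' hi'
  have h1 := hmin i' (by
    rw [mem_filter]
    exact ⟨mem_univ _, hi'⟩)
  have d1 : (0 : ℚ) < den m i := by exact_mod_cast (hpos i hi.2).2
  have d2 : (0 : ℚ) < den m i' := by exact_mod_cast (hpos i' hi').2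
  rw [div_le_div_iff₀ d1 d2] at h1
  exact_mod_cast h1

theorem stepB (hCOL : G_COL) (h : RG U w r) (hU : U.Nonempty) (hr : 0 < r) (hnt : NT U w r) :
    ∃ (s k : ℕ) (w' : V → V → ℕ), 0 < k ∧ RG U w' s ∧
      (∀ k', Col (fun u v => k' * w' u v) (k' * s) → Col (fun u v => k' * k * w u v) (k' * k * r)) ∧
      (sup w' < sup w ∨ ∃ X, X ⊆ U ∧ Odd X.card ∧ 3 ≤ X.card ∧ X.card + 3 ≤ U.card ∧
        ct w' X = s) := by
  obtain ⟨C1, -, C3⟩ := hCOL V
  obtain ⟨m, hm⟩ := Pool.Agent.Helper35.RG3.xpm V U w r h hr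
  obtain ⟨i, hi, hj, hk, hmin⟩ := exists_min h hU hm hnt
  set j := num w m r i with hjd
  set k := den m i with hkd
  have hle : ∀ u ∈ U, j ≤ k * w u (m u) := by
    intro u hu
    have h1 := hmin (Sum.inl u) hu
    have h2 : j * 1 ≤ w u (m u) * k := h1
    rw [mul_one, mul_comm] at h2
    exact h2
  have hex : ∀ u v, (k * w u v - em m j u v) + em m j u v = k * w u v := by
    intro u v
    refine Nat.sub_add_cancel ?_
    unfold em
    split_ifs with hc
    · obtain ⟨h1, rfl⟩ := hc
      refine hle u ?_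
      by_contra hu
      exact h1 (hm.out u hu).symm
    · exact Nat.zero_le _
  obtain ⟨u₀, hu₀⟩ := hU
  have hwr : ∀ u ∈ U, w u (m u) ≤ r := by
    intro u hu
    rw [← h.deg u hu]
    exact Finset.single_le_sum (f := fun v => w u v) (fun _ _ => Nat.zero_le _) (mem_univ (m u))
  have hjr : j ≤ k * r := (hle u₀ hu₀).trans (Nat.mul_le_mul_left k (hwr u₀ hu₀))
  have hctw : ∀ X, ct (fun u v => k * w u v - em m j u v) X + j * cr m X = k * ct w X := by
    intro X
    rw [← ct_em m j X, ← ct_add, ← ct_mul]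
    congr 1
    funext u v
    exact hex u v
  have hcrX : ∀ X, X ⊆ U → Odd X.card → cr m X = 1 ∨ 3 ≤ cr m X := by
    intro X hX ho
    have h1 := cr_parity h hm hX
    obtain ⟨l, hl⟩ := ho
    omega
  have hrg : RG U (fun u v => k * w u v - em m j u v) (k * r - j) := by
    refine ⟨?_, ?_, ?_, ?_, ?_⟩
    · intro u v
      show k * w u v - em m j u v = k * w v u - em m j v u
      rw [h.symm u v, em_symm hm.invol j u v]
    · intro u
      show k * w u u - em m j u u = 0
      rw [h.irr, mul_zero, Nat.zero_sub]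
    · intro u v huv
      refine h.supp u v fun h0 => huv ?_
      show k * w u v - em m j u v = 0
      rw [h0, mul_zero, Nat.zero_sub]
    · intro u hu
      have h1 : ∑ v, ((k * w u v - em m j u v) + em m j u v) = k * r := by
        rw [Finset.sum_congr rfl fun v _ => hex u v, ← Finset.mul_sum, h.deg u hu]
      rw [Finset.sum_add_distrib, em_deg j (hm.ne h hu)] at h1
      show ∑ v, (k * w u v - em m j u v) = k * r - j
      omega
    · intro X hX ho
      have h1 := hctw X
      have h2 := h.cut X hX ho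
      have h3 : k * r ≤ k * ct w X := Nat.mul_le_mul_left k h2
      rcases hcrX X hX ho with h4 | h4
      · rw [h4, mul_one] at h1
        omega
      · have h5 : j * (cr m X - 1) ≤ (ct w X - r) * k := hmin (Sum.inr X) ⟨hX, ho, h4⟩
        obtain ⟨c, hc⟩ : ∃ c, cr m X = c + 1 := ⟨cr m X - 1, by omega⟩
        obtain ⟨d, hd⟩ : ∃ d, ct w X = r + d := ⟨ct w X - r, by omega⟩
        rw [hc, hd] at h1
        rw [hc, hd, Nat.add_sub_cancel, Nat.add_sub_cancel_left, mul_comm d k] at h5
        rw [mul_add, mul_add, mul_one] at h1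
        omega
  refine ⟨k * r - j, k, fun u v => k * w u v - em m j u v, hk, hrg, ?_, ?_⟩
  · intro k' hc
    have h1 := C1 _ _ _ _ hc (C3 m (k' * j) hm.invol)
    have e1 : (fun u v => k' * (k * w u v - em m j u v) +
        (if u ≠ v ∧ m u = v then k' * j else 0)) = fun u v => k' * k * w u v := by
      funext u v
      have e : (if u ≠ v ∧ m u = v then k' * j else 0) = k' * em m j u v := by
        unfold em
        rw [mul_ite, mul_zero]
      rw [e, ← mul_add, hex, mul_assoc]
    have e2 : k' * (k * r - j) + k' * j = k' * k * r := by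
      rw [← mul_add, Nat.sub_add_cancel hjr, mul_assoc]
    rw [← e1, ← e2]
    exact h1
  · rcases i with u | X
    · left
      have hu : u ∈ U := hi
      have hk1 : k = 1 := hkd
      have hj1 : j = w u (m u) := hjd
      unfold sup
      refine Finset.card_lt_card ?_
      rw [Finset.ssubset_iff_of_subset]
      · refine ⟨(u, m u), ?_, ?_⟩
        · rw [mem_filter]
          exact ⟨mem_univ _, hm.adj u hu⟩
        · rw [mem_filter]
          rintro ⟨-, h1⟩
          apply h1
          show k * w u (m u) - em m j u (m u) = 0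
          unfold em
          rw [if_pos ⟨(hm.ne h hu).symm, rfl⟩, hk1, hj1, one_mul, Nat.sub_self]
      · intro q hq
        rw [mem_filter] at hq ⊢
        refine ⟨mem_univ _, fun h0 => hq.2 ?_⟩
        show k * w q.1 q.2 - em m j q.1 q.2 = 0
        rw [h0, mul_zero, Nat.zero_sub]
    · right
      obtain ⟨hX, ho, h3⟩ := hi
      have h1 := cr_le m X
      have h2 := cr_le m (U \ X)
      rw [cr_compl h hm hX, Finset.card_sdiff_of_subset hX] at h2
      refine ⟨X, hX, ho, by omega, by omega, ?_⟩
      have hk1 : k = cr m X - 1 := hkd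
      have hj1 : j = ct w X - r := hjd
      have h4 := hctw X
      have h5 := h.cut X hX ho
      obtain ⟨c, hc⟩ : ∃ c, cr m X = c + 1 := ⟨cr m X - 1, by omega⟩
      obtain ⟨d, hd⟩ : ∃ d, ct w X = r + d := ⟨ct w X - r, by omega⟩
      rw [hc, Nat.add_sub_cancel] at hk1
      rw [hd, Nat.add_sub_cancel_left] at hj1
      rw [hc, hd] at h4
      have h6 : ct (fun u v => k * w u v - em m j u v) X + d * (c + 1) = c * (r + d) := by
        rw [hk1, hj1] at h4 ⊢
        exact h4
      rw [hk1, hj1]
      rw [hk1, hj1] at h6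
      have h7 : c * (r + d) = c * r + d * c := by ring
      have h8 : d * (c + 1) = d * c + d := by ring
      omega

theorem frac (hCOL : G_COL) : ∀ (n : ℕ) (U : Finset V) (w : V → V → ℕ) (r : ℕ), U.card ≤ n →
    RG U w r → Frac w r := by
  intro n
  induction n using Nat.strong_induction_on with
  | _ n ihn =>
    have inner : ∀ (s : ℕ) (U : Finset V) (w : V → V → ℕ) (r : ℕ), U.card ≤ n → sup w ≤ s →
        RG U w r → Frac w r := by
      intro s
      induction s using Nat.strong_induction_on with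
      | _ s ihs =>
        intro U w r hUn hs h
        have ih : ∀ (U' : Finset V) (w' : V → V → ℕ) (r' : ℕ), U'.card < U.card → RG U' w' r' →
            Frac w' r' := by
          intro U' w' r' hlt h'
          exact ihn U'.card (by omega) U' w' r' le_rfl h'
        rcases Nat.eq_zero_or_pos r with hr0 | hr
        · subst hr0
          exact frac_zero h
        rcases U.eq_empty_or_nonempty with hU | hU
        · refine ⟨1, one_pos, ?_⟩
          have h1 := (hCOL V).2.2 (fun u => u) (1 * r) fun u => rfl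
          have e : (fun u v : V => if u ≠ v ∧ u = v then 1 * r else 0) = fun u v => 1 * w u v := by
            funext u v
            rw [if_neg fun hh => hh.1 hh.2, h.zero_left (by rw [hU]; exact notMem_empty u) v]
          rw [← e]
          exact h1
        by_cases hnt : NT U w r
        · obtain ⟨t, k, w', hk, h', hcol, hor⟩ := stepB hCOL h hU hr hnt
          have hf : Frac w' t := by
            rcases hor with hlt | ⟨X, hX, ho, h3, h4, hct⟩
            · exact ihs (sup w') (by omega) U w' t hUn le_rfl h'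
            · rcases Nat.eq_zero_or_pos t with ht0 | ht
              · subst ht0
                exact frac_zero h'
              · exact stepA hCOL ih h' ht X hX ho h3 h4 hct
          obtain ⟨k', hk', c'⟩ := hf
          exact ⟨k' * k, Nat.mul_pos hk' hk, hcol k' c'⟩
        · unfold NT at hnt
          push Not at hnt
          obtain ⟨X, hX, ho, h3, h4, h5⟩ := hnt
          exact stepA hCOL ih h hr X hX ho h3 h4 (le_antisymm h5 (h.cut X hX ho))
    intro U w r hUn h
    exact inner (sup w) U w r hUn le_rfl h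

theorem gfrc (hCOL : G_COL) : G_FRC := by
  intro V _ _ U w r h
  exact frac hCOL U.card U w r le_rfl h

end Pool.Agent.Helper14.RL
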